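import Mathlib

/-!
# GQL CutA: cutting down a family of Laurent polynomials

`A` a domain of finite type over `ℂ`, `X i` Laurent polynomials over `A`.  Among the primes `Q` of `A` which do not contain a given coefficient `c ≠ 0` of `X i₀` at `T^{n₀}`, `n₀ ≠ 0`, and for which the `X i` mod `Q` have the same algebraic
relations over `ℂ` as the `X i`, take a maximal one.  For it `L (T)`, `L = Frac (A / Q)`, is algebraic over `ℂ (X mod Q)`: otherwise there is `a` in `A / Q` transcendental over `F = ℂ (X mod Q)`; the `F`-algebra generated by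
`A / Q`, `T`, `1 / T`, `1 / c` has countable dimension, so some `a - α` is not a unit in it, and a maximal ideal containing `a - α` gives a larger prime.
-/

set_option autoImplicit false

open Cardinal

namespace Pool.Agent.GQL

/-- a Laurent polynomial which vanishes at a transcendental element is `0` -/
theorem Cut_inj {S K : Type} [CommRing S] [Field K] [Algebra S K] (t : Kˣ) (ht : Transcendental S (t : K)) {p : LaurentPolynomial S}
    (h : LaurentPolynomial.eval₂ (algebraMap S K) t p = 0) : p = 0 := by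
  obtain ⟨n, f, hf⟩ := LaurentPolynomial.exists_T_pow p
  have h1 : Polynomial.aeval (t : K) f = 0 := by
    have := congrArg (LaurentPolynomial.eval₂ (algebraMap S K) t) hf
    rw [LaurentPolynomial.eval₂_toLaurent, map_mul, h, zero_mul] at this
    rwa [Polynomial.aeval_def]
  have h2 : f = 0 := by
    by_contra h3
    exact ht ⟨f, h3, h1⟩
  rw [h2, map_zero] at hf
  exact (LaurentPolynomial.isUnit_T _).mul_left_eq_zero.1 hf.symm

theorem Cut_rank {F B : Type} [Field F] [CommRing B] [Algebra F B] [Algebra.FiniteType F B] : Module.rank F B ≤ ℵ₀ := by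
  obtain ⟨n, f, hf⟩ := Algebra.FiniteType.iff_quotient_mvPolynomial''.1 (inferInstance : Algebra.FiniteType F B)
  refine (LinearMap.rank_le_of_surjective f.toLinearMap hf).trans ?_
  rw [MvPolynomial.rank_eq]
  exact Cardinal.mk_le_aleph0

theorem Cut_nonunit {F K : Type} [Field F] [Field K] [Algebra ℂ F] [Algebra F K] [Algebra ℂ K] [IsScalarTower ℂ F K] (B : Subalgebra F K)
    (hB : Algebra.FiniteType F B) {a : K} (hta : Transcendental F a) : ∃ α : ℂ, (a - algebraMap ℂ K α)⁻¹ ∉ B := by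
  by_contra h
  push Not at h
  let v : ℂ → B := fun α => ⟨(a - algebraMap ℂ K α)⁻¹, h α⟩
  have h1 : LinearIndependent F v := by
    apply LinearIndependent.of_comp B.val.toLinearMap
    have h2 := hta.linearIndependent_sub_inv.comp (algebraMap ℂ F) (algebraMap ℂ F).injective
    have h5 : (fun a_1 : F => (a - (algebraMap F K) a_1)⁻¹) ∘ ⇑(algebraMap ℂ F) = B.val.toLinearMap ∘ v := by
      funext α
      change (a - algebraMap F K (algebraMap ℂ F α))⁻¹ = (a - algebraMap ℂ K α)⁻¹
      rw [← IsScalarTower.algebraMap_apply ℂ F K]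
    rw [h5] at h2
    exact h2
  have h3 := h1.cardinal_le_rank
  have h4 : #ℂ ≤ ℵ₀ := h3.trans Cut_rank
  rw [Cardinal.mk_complex] at h4
  exact absurd h4 (not_le.2 Cardinal.aleph0_lt_continuum)

theorem Cut_map_eval {R S S' : Type} [CommRing R] [CommRing S] [CommRing S'] (f : R →+* S) (x : Sˣ) (g : S →+* S') (p : LaurentPolynomial R) :
    g (LaurentPolynomial.eval₂ f x p) = LaurentPolynomial.eval₂ (g.comp f) (Units.map (g : S →* S') x) p := by
  induction p using LaurentPolynomial.induction_on' with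
  | add p q hp hq => rw [map_add, map_add, map_add, hp, hq]
  | C_mul_T n a =>
    rw [LaurentPolynomial.eval₂_C_mul_T, LaurentPolynomial.eval₂_C_mul_T, map_mul, ← map_zpow]
    rfl

theorem Cut_eval_map {R R' S : Type} [CommRing R] [CommRing R'] [CommRing S] (h : R →+* R') (f : R' →+* S) (x : Sˣ) (p : LaurentPolynomial R) :
    LaurentPolynomial.eval₂ f x (AddMonoidAlgebra.mapRingHom ℤ h p : LaurentPolynomial R') = LaurentPolynomial.eval₂ (f.comp h) x p := by
  induction p using LaurentPolynomial.induction_on' with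
  | add p q hp hq => rw [map_add, map_add, map_add, hp, hq]
  | C_mul_T n a =>
    rw [LaurentPolynomial.eval₂_C_mul_T, ← LaurentPolynomial.single_eq_C_mul_T, AddMonoidAlgebra.mapRingHom_single, LaurentPolynomial.single_eq_C_mul_T,
      LaurentPolynomial.eval₂_C_mul_T]
    rfl

/-- relations of Laurent polynomials and of their values -/
theorem Cut_aeval {A K ι : Type} [CommRing A] [Algebra ℂ A] [CommRing K] [Algebra ℂ K] (φ : A →+* K) (hφ : φ.comp (algebraMap ℂ A) = algebraMap ℂ K)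
    (t : Kˣ) (X : ι → LaurentPolynomial A) (q : MvPolynomial ι ℂ) :
    LaurentPolynomial.eval₂ φ t (MvPolynomial.aeval X q) = MvPolynomial.aeval (fun i => LaurentPolynomial.eval₂ φ t (X i)) q := by
  rw [MvPolynomial.map_aeval, MvPolynomial.aeval_def, MvPolynomial.coe_eval₂Hom]
  congr 1
  rw [← hφ]
  ext z
  rw [RingHom.comp_apply, LaurentPolynomial.algebraMap_apply, LaurentPolynomial.eval₂_C]
  rfl

theorem Cut_quot {A B ι : Type} [CommRing A] [Algebra ℂ A] [CommRing B] [Algebra ℂ B] (ψ : A →+* B) (hψ : ψ.comp (algebraMap ℂ A) = algebraMap ℂ B)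
    (t : Bˣ) (X : ι → LaurentPolynomial A) (𝔪 : Ideal B) (q : MvPolynomial ι ℂ)
    (hq : MvPolynomial.aeval (fun i => (AddMonoidAlgebra.mapRingHom ℤ (Ideal.Quotient.mk (𝔪.comap ψ)) (X i) : LaurentPolynomial (A ⧸ 𝔪.comap ψ))) q = 0) :
    Ideal.Quotient.mk 𝔪 (MvPolynomial.aeval (fun i => LaurentPolynomial.eval₂ ψ t (X i)) q) = 0 := by
  have e1 : Ideal.Quotient.mk 𝔪 (MvPolynomial.aeval (fun i => LaurentPolynomial.eval₂ ψ t (X i)) q) =
      MvPolynomial.aeval (fun i => Ideal.Quotient.mk 𝔪 (LaurentPolynomial.eval₂ ψ t (X i))) q :=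
    MvPolynomial.comp_aeval_apply (fun i => LaurentPolynomial.eval₂ ψ t (X i)) (Ideal.Quotient.mkₐ ℂ 𝔪) q
  have e2 : ∀ i, Ideal.Quotient.mk 𝔪 (LaurentPolynomial.eval₂ ψ t (X i)) =
      LaurentPolynomial.eval₂ (Ideal.quotientMap 𝔪 ψ le_rfl) (Units.map (Ideal.Quotient.mk 𝔪 : B →* (B ⧸ 𝔪)) t)
      (AddMonoidAlgebra.mapRingHom ℤ (Ideal.Quotient.mk (𝔪.comap ψ)) (X i) : LaurentPolynomial (A ⧸ 𝔪.comap ψ)) := by
    intro i
    rw [Cut_eval_map, Ideal.quotientMap_comp_mk]
    exact Cut_map_eval ψ t (Ideal.Quotient.mk 𝔪) (X i)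
  rw [e1, funext e2, ← Cut_aeval _ ?_, hq, map_zero]
  ext z
  change Ideal.Quotient.mk 𝔪 (ψ.comp (algebraMap ℂ A) z) = Ideal.Quotient.mk 𝔪 (algebraMap ℂ B z)
  rw [hψ]

/-- the step of the cutting: a larger good prime -/
theorem Cut_step {A K ι : Type} [CommRing A] [Algebra ℂ A] [Algebra.FiniteType ℂ A] [Field K] [Algebra ℂ K] [Algebra A K] [IsScalarTower ℂ A K]
    (t : Kˣ) (ht : Transcendental A (t : K)) (X : ι → LaurentPolynomial A) {c : A} (hc : algebraMap A K c ≠ 0) {a : A}
    (ha : Transcendental (IntermediateField.adjoin ℂ (Set.range fun i => LaurentPolynomial.eval₂ (algebraMap A K) t (X i))) (algebraMap A K a)) :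
    ∃ Q : Ideal A, Q.IsPrime ∧ c ∉ Q ∧ (∃ b ∈ Q, algebraMap A K b ≠ 0) ∧
      ∀ q : MvPolynomial ι ℂ, MvPolynomial.aeval (fun i => (AddMonoidAlgebra.mapRingHom ℤ (Ideal.Quotient.mk Q) (X i) : LaurentPolynomial (A ⧸ Q))) q = 0 →
        MvPolynomial.aeval X q = 0 := by
  classical
  set F := IntermediateField.adjoin ℂ (Set.range fun i => LaurentPolynomial.eval₂ (algebraMap A K) t (X i)) with hF
  obtain ⟨S, hS⟩ := (inferInstance : Algebra.FiniteType ℂ A).out
  let S' : Set K := (algebraMap A K) '' (S : Set A) ∪ {(t : K), (t : K)⁻¹, (algebraMap A K c)⁻¹}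
  let B : Subalgebra F K := Algebra.adjoin F S'
  have hB : Algebra.FiniteType F B := by
    have h1 : S'.Finite := (S.finite_toSet.image _).union (by simp)
    exact (Subalgebra.fg_iff_finiteType _).1 ⟨h1.toFinset, by rw [Set.Finite.coe_toFinset]⟩
  have hAB : ∀ b : A, algebraMap A K b ∈ B := by
    intro b
    have h1 : b ∈ Algebra.adjoin ℂ (S : Set A) := by rw [hS]; trivial
    have h2 : algebraMap A K b ∈ (Algebra.adjoin ℂ (S : Set A)).map (IsScalarTower.toAlgHom ℂ A K) := ⟨b, h1, rfl⟩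
    rw [AlgHom.map_adjoin] at h2
    have h3 : Algebra.adjoin ℂ ((algebraMap A K) '' (S : Set A)) ≤ (Algebra.adjoin F S').restrictScalars ℂ := by
      apply Algebra.adjoin_le
      intro x hx
      exact Algebra.subset_adjoin (Set.mem_union_left _ hx)
    exact h3 h2
  have htB : (t : K) ∈ B := Algebra.subset_adjoin (Set.mem_union_right _ (by simp))
  have htB' : (t : K)⁻¹ ∈ B := Algebra.subset_adjoin (Set.mem_union_right _ (by simp))
  have hcB : (algebraMap A K c)⁻¹ ∈ B := Algebra.subset_adjoin (Set.mem_union_right _ (by simp))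
  obtain ⟨α, hα⟩ := Cut_nonunit B hB ha
  let ψ : A →+* B := (algebraMap A K).codRestrict B hAB
  have hψ : ∀ b, ((ψ b : B) : K) = algebraMap A K b := fun b => rfl
  set b₀ : A := a - algebraMap ℂ A α with hb₀
  have hb₀' : algebraMap A K b₀ = algebraMap A K a - algebraMap ℂ K α := by
    rw [hb₀, map_sub, ← IsScalarTower.algebraMap_apply ℂ A K]
  have hb₁ : algebraMap A K b₀ ≠ 0 := by
    intro h0
    rw [hb₀'] at h0
    rw [h0, inv_zero] at hα
    exact hα B.zero_mem
  have hnu : ψ b₀ ∈ nonunits B := by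
    rintro ⟨u, hu⟩
    have h1 : (((u⁻¹ : Bˣ) : B) : K) = (algebraMap A K a - algebraMap ℂ K α)⁻¹ := by
      have h2 : ((u : B) : K) * (((u⁻¹ : Bˣ) : B) : K) = 1 := by
        have := congrArg (Subtype.val) (Units.mul_inv u)
        exact this
      rw [hu, hψ, hb₀'] at h2
      exact eq_inv_of_mul_eq_one_right h2
    rw [← h1] at hα
    exact hα (SetLike.coe_mem _)
  obtain ⟨𝔪, hm, hm'⟩ := exists_max_ideal_of_mem_nonunits hnu
  have hmu : ∀ u ∈ 𝔪, ¬ IsUnit u := fun u hu hu' => hm.ne_top (Ideal.eq_top_of_isUnit_mem 𝔪 hu hu')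
  refine ⟨𝔪.comap ψ, hm.isPrime.comap ψ, fun h1 => ?_, ⟨b₀, hm', hb₁⟩, fun q hq => ?_⟩
  · refine hmu _ (Ideal.mem_comap.1 h1) (IsUnit.of_mul_eq_one (⟨_, hcB⟩ : B) (Subtype.ext ?_))
    change algebraMap A K c * (algebraMap A K c)⁻¹ = 1
    exact mul_inv_cancel₀ hc
  let tB : Bˣ := ⟨⟨t, htB⟩, ⟨(t : K)⁻¹, htB'⟩, Subtype.ext (mul_inv_cancel₀ t.ne_zero), Subtype.ext (inv_mul_cancel₀ t.ne_zero)⟩
  let xB : ι → B := fun i => LaurentPolynomial.eval₂ ψ tB (X i)
  let _ : Algebra ℂ B := (ψ.comp (algebraMap ℂ A)).toAlgebra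
  have h1 : Ideal.Quotient.mk 𝔪 (MvPolynomial.aeval xB q) = 0 := by
    exact Cut_quot ψ rfl tB X 𝔪 q hq
  have h2 : ((MvPolynomial.aeval xB q : B) : K) = MvPolynomial.aeval (fun i => LaurentPolynomial.eval₂ (algebraMap A K) t (X i)) q := by
    let g : B →ₐ[ℂ] K := { (B.val : B →+* K) with commutes' := fun z => (IsScalarTower.algebraMap_apply ℂ A K z).symm }
    have e1 : ((MvPolynomial.aeval xB q : B) : K) = MvPolynomial.aeval (fun i => g (xB i)) q := MvPolynomial.comp_aeval_apply xB g q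
    rw [e1]
    congr 2
    funext i
    exact Cut_map_eval ψ tB (B.val : B →+* K) (X i)
  have h3 : MvPolynomial.aeval (fun i => LaurentPolynomial.eval₂ (algebraMap A K) t (X i)) q ∈ F := by
    have e1 : ∀ i, LaurentPolynomial.eval₂ (algebraMap A K) t (X i) ∈ F := fun i => IntermediateField.subset_adjoin _ _ ⟨i, rfl⟩
    have e2 := MvPolynomial.comp_aeval_apply (fun i => (⟨_, e1 i⟩ : F)) F.val q
    change _ = MvPolynomial.aeval (fun i => LaurentPolynomial.eval₂ (algebraMap A K) t (X i)) q at e2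
    rw [← e2]
    exact SetLike.coe_mem _
  have h4 : MvPolynomial.aeval (fun i => LaurentPolynomial.eval₂ (algebraMap A K) t (X i)) q = 0 := by
    by_contra h5
    have h6 : IsUnit (algebraMap F B ⟨_, h3⟩) := (IsUnit.mk0 _ fun h7 => h5 (congrArg Subtype.val h7)).map _
    refine hmu _ ?_ h6
    have h7 : algebraMap F B ⟨_, h3⟩ = MvPolynomial.aeval xB q := Subtype.ext h2.symm
    rw [h7]
    exact Ideal.Quotient.eq_zero_iff_mem.1 h1
  apply Cut_inj t ht
  rw [Cut_aeval _ (IsScalarTower.algebraMap_eq ℂ A K).symm, h4]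

end Pool.Agent.GQL
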