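import Pool.Agent.GQL.CutA

/-!
# GQL CutB: the algebraicity and the final form of the cutting
-/

set_option autoImplicit false

namespace Pool.Agent.GQL

theorem Cut_alg {A K ι : Type} [CommRing A] [Algebra ℂ A] [Field K] [Algebra ℂ K] [Algebra A K] [IsScalarTower ℂ A K]
    (t : Kˣ) (X : ι → LaurentPolynomial A) {i₀ : ι} {n₀ : ℤ} (hn : n₀ ≠ 0) (hc : algebraMap A K ((X i₀).coeff n₀) ≠ 0)
    (hK : ∀ E : IntermediateField ℂ K, (∀ a : A, algebraMap A K a ∈ E) → (t : K) ∈ E → E = ⊤)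
    (h : ∀ a : A, IsAlgebraic (IntermediateField.adjoin ℂ (Set.range fun i => LaurentPolynomial.eval₂ (algebraMap A K) t (X i))) (algebraMap A K a)) :
    Algebra.IsAlgebraic (IntermediateField.adjoin ℂ (Set.range fun i => LaurentPolynomial.eval₂ (algebraMap A K) t (X i))) K := by
  set F := IntermediateField.adjoin ℂ (Set.range fun i => LaurentPolynomial.eval₂ (algebraMap A K) t (X i)) with hF
  let E := algebraicClosure F K
  have hA : ∀ a : A, algebraMap A K a ∈ E := fun a => mem_algebraicClosure_iff.2 (h a)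
  have hx : LaurentPolynomial.eval₂ (algebraMap A K) t (X i₀) ∈ F := IntermediateField.subset_adjoin _ _ ⟨i₀, rfl⟩
  have ht : (t : K) ∈ E := by
    by_contra h1
    have h2 : Transcendental E (t : K) := fun h3 => h1 (mem_algebraicClosure_iff.2 (h3.restrictScalars F))
    let ψ : A →+* E := (algebraMap A K).codRestrict E hA
    let p : LaurentPolynomial E := (AddMonoidAlgebra.mapRingHom ℤ ψ (X i₀) : LaurentPolynomial E) - LaurentPolynomial.C (algebraMap F E ⟨_, hx⟩)
    have h3 : LaurentPolynomial.eval₂ (algebraMap E K) t p = 0 := by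
      rw [map_sub, Cut_eval_map, LaurentPolynomial.eval₂_C]
      exact sub_self _
    have h4 := Cut_inj t h2 h3
    have h5 : p.coeff n₀ = ψ ((X i₀).coeff n₀) := by
      change ((AddMonoidAlgebra.mapRingHom ℤ ψ (X i₀) : LaurentPolynomial E) - LaurentPolynomial.C (algebraMap F E ⟨_, hx⟩)).coeff n₀ = _
      simp [hn]
    rw [h4] at h5
    apply hc
    have h6 := congrArg (Subtype.val) h5
    exact h6.symm
  have h7 : E.restrictScalars ℂ = ⊤ := hK _ hA ht
  have h8 : ∀ x : K, x ∈ E := by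
    intro x
    have : x ∈ E.restrictScalars ℂ := by rw [h7]; trivial
    exact this
  exact ⟨fun x => mem_algebraicClosure_iff.1 (h8 x)⟩

theorem Cut_map_aeval {R R' ι : Type} [CommRing R] [Algebra ℂ R] [CommRing R'] [Algebra ℂ R'] (h : R →+* R') (hh : h.comp (algebraMap ℂ R) = algebraMap ℂ R')
    (Y : ι → LaurentPolynomial R) (q : MvPolynomial ι ℂ) :
    (AddMonoidAlgebra.mapRingHom ℤ h (MvPolynomial.aeval Y q) : LaurentPolynomial R') =
      MvPolynomial.aeval (fun i => (AddMonoidAlgebra.mapRingHom ℤ h (Y i) : LaurentPolynomial R')) q := by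
  rw [MvPolynomial.map_aeval, MvPolynomial.aeval_def, MvPolynomial.coe_eval₂Hom]
  congr 1
  refine RingHom.ext fun z => ?_
  have e1 : algebraMap ℂ (LaurentPolynomial R) z = AddMonoidAlgebra.single 0 (algebraMap ℂ R z) := LaurentPolynomial.algebraMap_apply z
  have e2 : algebraMap ℂ (LaurentPolynomial R') z = AddMonoidAlgebra.single 0 (algebraMap ℂ R' z) := LaurentPolynomial.algebraMap_apply z
  rw [RingHom.comp_apply]
  refine (congrArg (AddMonoidAlgebra.mapRingHom ℤ h) e1).trans (Eq.trans ?_ e2.symm)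
  rw [AddMonoidAlgebra.mapRingHom_single, ← hh]
  rfl

/-- among the primes of `A` which do not contain `c` and keep the relations there is a maximal one -/
theorem Cut_max {A ι : Type} [CommRing A] [IsDomain A] [Algebra ℂ A] [Algebra.FiniteType ℂ A] (X : ι → LaurentPolynomial A) {c : A} (hc : c ≠ 0) :
    ∃ Q : Ideal A, Q.IsPrime ∧ c ∉ Q ∧
      (∀ q : MvPolynomial ι ℂ, MvPolynomial.aeval (fun i => (AddMonoidAlgebra.mapRingHom ℤ (Ideal.Quotient.mk Q) (X i) : LaurentPolynomial (A ⧸ Q))) q = 0 →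
        MvPolynomial.aeval X q = 0) ∧
      ∀ Q₁ : Ideal (A ⧸ Q), Q₁.IsPrime → Ideal.Quotient.mk Q c ∉ Q₁ → (∀ q : MvPolynomial ι ℂ,
        MvPolynomial.aeval (fun i => (AddMonoidAlgebra.mapRingHom ℤ (Ideal.Quotient.mk Q₁)
          (AddMonoidAlgebra.mapRingHom ℤ (Ideal.Quotient.mk Q) (X i)) : LaurentPolynomial ((A ⧸ Q) ⧸ Q₁))) q = 0 →
        MvPolynomial.aeval (fun i => (AddMonoidAlgebra.mapRingHom ℤ (Ideal.Quotient.mk Q) (X i) : LaurentPolynomial (A ⧸ Q))) q = 0) → Q₁ = ⊥ := by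
  have _ : IsNoetherianRing A := Algebra.FiniteType.isNoetherianRing ℂ A
  let G : Set (Ideal A) := {Q | Q.IsPrime ∧ c ∉ Q ∧
      ∀ q : MvPolynomial ι ℂ, MvPolynomial.aeval (fun i => (AddMonoidAlgebra.mapRingHom ℤ (Ideal.Quotient.mk Q) (X i) : LaurentPolynomial (A ⧸ Q))) q = 0 →
        MvPolynomial.aeval X q = 0}
  have hG : G.Nonempty := by
    refine ⟨⊥, Ideal.isPrime_bot, fun h => hc (Ideal.mem_bot.1 h), fun q hq => ?_⟩
    have h1 := Cut_map_aeval (Ideal.Quotient.mk (⊥ : Ideal A)) rfl X q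
    rw [hq] at h1
    have h2 : Function.Injective (AddMonoidAlgebra.mapRingHom ℤ (Ideal.Quotient.mk (⊥ : Ideal A))) := by
      intro x y hxy
      ext n
      have h3 := congrArg (fun z : LaurentPolynomial (A ⧸ (⊥ : Ideal A)) => z.coeff n) hxy
      simp only [AddMonoidAlgebra.coeff_mapRingHom] at h3
      have h4 := Ideal.Quotient.eq.1 h3
      rw [Ideal.mem_bot, sub_eq_zero] at h4
      exact h4
    exact h2 (h1.trans (map_zero _).symm)
  obtain ⟨Q, hQ, hmax⟩ := set_has_maximal_iff_noetherian.2 ‹IsNoetherianRing A› G hG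
  refine ⟨Q, hQ.1, hQ.2.1, hQ.2.2, fun Q₁ h1 h2 h3 => ?_⟩
  by_contra hne
  have hle : Q ≤ Q₁.comap (Ideal.Quotient.mk Q) := by
    intro x hx
    rw [Ideal.mem_comap, Ideal.Quotient.eq_zero_iff_mem.2 hx]
    exact Q₁.zero_mem
  have hmem : Q₁.comap (Ideal.Quotient.mk Q) ∈ G := by
    refine ⟨h1.comap _, fun h => h2 h, fun q hq => hQ.2.2 q (h3 q ?_)⟩
    have h4 := Cut_map_aeval (Ideal.quotientMap Q₁ (Ideal.Quotient.mk Q) le_rfl) rfl
      (fun i => (AddMonoidAlgebra.mapRingHom ℤ (Ideal.Quotient.mk (Q₁.comap (Ideal.Quotient.mk Q))) (X i) : LaurentPolynomial (A ⧸ Q₁.comap (Ideal.Quotient.mk Q)))) q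
    rw [hq, map_zero] at h4
    refine Eq.trans ?_ h4.symm
    congr 2
    funext i
    ext n
    simp only [AddMonoidAlgebra.coeff_mapRingHom, Ideal.quotientMap_mk]
  refine hmax _ hmem (lt_of_le_of_ne hle fun he => hne ?_)
  rw [eq_bot_iff]
  intro y hy
  obtain ⟨x, rfl⟩ := Ideal.Quotient.mk_surjective y
  have h5 : x ∈ Q := by rw [he]; exact hy
  rw [Ideal.Quotient.eq_zero_iff_mem.2 h5]
  exact Submodule.zero_mem _

/-- cutting with values in `Frac (A / Q) (T)` -/
theorem Cut_main {A ι : Type} [CommRing A] [IsDomain A] [Algebra ℂ A] [Algebra.FiniteType ℂ A] (X : ι → LaurentPolynomial A) {i₀ : ι} {n₀ : ℤ}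
    (hn : n₀ ≠ 0) (hc : (X i₀).coeff n₀ ≠ 0) :
    ∃ (K : Type) (_ : Field K) (_ : Algebra ℂ K) (_ : Algebra.EssFiniteType ℂ K) (L : IntermediateField ℂ K) (t : Kˣ) (ψ : A →ₐ[ℂ] K),
      Transcendental L (t : K) ∧ IntermediateField.adjoin L {(t : K)} = ⊤ ∧ (∀ a, ψ a ∈ L) ∧ ψ ((X i₀).coeff n₀) ≠ 0 ∧
      (∀ q : MvPolynomial ι ℂ, MvPolynomial.aeval (fun i => LaurentPolynomial.eval₂ (ψ : A →+* K) t (X i)) q = 0 ↔ MvPolynomial.aeval X q = 0) ∧
      Algebra.IsAlgebraic (IntermediateField.adjoin ℂ (Set.range fun i => LaurentPolynomial.eval₂ (ψ : A →+* K) t (X i))) K := by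
  obtain ⟨Q, hQ, hcQ, hrel, hmax⟩ := Cut_max X hc
  let A' := A ⧸ Q
  let L₀ := FractionRing A'
  let K := RatFunc L₀
  have _ : IsScalarTower ℂ A' K := inferInstance
  have _ : IsScalarTower A' L₀ K := inferInstance
  have _ : IsScalarTower ℂ L₀ K := inferInstance
  have _ : Algebra.FiniteType ℂ A' := inferInstance
  have hinj : Function.Injective (algebraMap A' K) := by
    rw [IsScalarTower.algebraMap_eq A' L₀ K]
    exact (algebraMap L₀ K).injective.comp (IsFractionRing.injective A' L₀)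
  have ht₀ : Transcendental L₀ (RatFunc.X : K) := RatFunc.transcendental_X
  let t : Kˣ := Units.mk0 RatFunc.X RatFunc.X_ne_zero
  have ht : Transcendental A' (t : K) := ht₀.restrictScalars (IsFractionRing.injective A' L₀)
  -- `K` is generated by `A'` and `t`
  have hK : ∀ E : IntermediateField ℂ K, (∀ a : A', algebraMap A' K a ∈ E) → (t : K) ∈ E → E = ⊤ := by
    intro E h1 h2
    have h3 : ∀ l : L₀, algebraMap L₀ K l ∈ E := by
      intro l
      obtain ⟨a, b, -, rfl⟩ := IsFractionRing.div_surjective (A := A') l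
      rw [map_div₀, ← IsScalarTower.algebraMap_apply, ← IsScalarTower.algebraMap_apply]
      exact E.div_mem (h1 a) (h1 b)
    have h4 : ∀ p : Polynomial L₀, algebraMap (Polynomial L₀) K p ∈ E := by
      intro p
      induction p using Polynomial.induction_on' with
      | add p q hp hq => rw [map_add]; exact E.add_mem hp hq
      | monomial n a =>
        rw [← Polynomial.C_mul_X_pow_eq_monomial, map_mul, map_pow, RatFunc.algebraMap_X]
        exact E.mul_mem (h3 a) (E.pow_mem h2 n)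
    rw [eq_top_iff]
    intro x _
    obtain ⟨p, q, -, rfl⟩ := IsFractionRing.div_surjective (A := Polynomial L₀) x
    exact E.div_mem (h4 p) (h4 q)
  let X' : ι → LaurentPolynomial A' := fun i => AddMonoidAlgebra.mapRingHom ℤ (Ideal.Quotient.mk Q) (X i)
  let ψ : A →ₐ[ℂ] K := (IsScalarTower.toAlgHom ℂ A' K).comp (Ideal.Quotient.mkₐ ℂ Q)
  have hψ : ∀ i, LaurentPolynomial.eval₂ (ψ : A →+* K) t (X i) = LaurentPolynomial.eval₂ (algebraMap A' K) t (X' i) := fun i =>
    (Cut_eval_map (Ideal.Quotient.mk Q) (algebraMap A' K) t (X i)).symm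
  have hc' : algebraMap A' K (Ideal.Quotient.mk Q ((X i₀).coeff n₀)) ≠ 0 := by
    intro h0
    exact hcQ (Ideal.Quotient.eq_zero_iff_mem.1 (hinj (h0.trans (map_zero _).symm)))
  have halg : ∀ a : A', IsAlgebraic (IntermediateField.adjoin ℂ (Set.range fun i => LaurentPolynomial.eval₂ (algebraMap A' K) t (X' i))) (algebraMap A' K a) := by
    intro a
    by_contra h1
    obtain ⟨Q₁, h2, h3, ⟨b, h4, h5⟩, h6⟩ := Cut_step t ht X' hc' h1
    have h7 := hmax Q₁ h2 h3 h6
    rw [h7, Ideal.mem_bot] at h4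
    exact h5 (by rw [h4, map_zero])
  have halg' := Cut_alg t X' (i₀ := i₀) hn (by
    change algebraMap A' K ((AddMonoidAlgebra.mapRingHom ℤ (Ideal.Quotient.mk Q) (X i₀) : LaurentPolynomial A').coeff n₀) ≠ 0
    rw [AddMonoidAlgebra.coeff_mapRingHom]
    exact hc') hK halg
  let L : IntermediateField ℂ K := (IsScalarTower.toAlgHom ℂ L₀ K).fieldRange
  have hL : ∀ l : L₀, algebraMap L₀ K l ∈ L := fun l => ⟨l, rfl⟩
  have hE : Algebra.EssFiniteType ℂ K := by
    have h1 : Algebra.EssFiniteType A' L₀ := Algebra.EssFiniteType.of_isLocalization L₀ (nonZeroDivisors A')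
    have h2 : Algebra.EssFiniteType ℂ L₀ := Algebra.EssFiniteType.comp ℂ A' L₀
    have h3 : Algebra.EssFiniteType (Polynomial L₀) K := Algebra.EssFiniteType.of_isLocalization K (nonZeroDivisors (Polynomial L₀))
    have h4 : Algebra.EssFiniteType L₀ K := Algebra.EssFiniteType.comp L₀ (Polynomial L₀) K
    exact Algebra.EssFiniteType.comp ℂ L₀ K
  refine ⟨K, inferInstance, inferInstance, hE, L, t, ψ, ?_, ?_, ?_, hc', fun q => ?_, ?_⟩
  · have h1 := Transcendental.ringHom_of_comp_eq ((algebraMap L₀ K).codRestrict L hL) (RingHom.id K) ht₀ (fun y => ?_) Function.injective_id rfl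
    · exact h1
    · obtain ⟨l, hl⟩ := y.2
      exact ⟨l, Subtype.ext hl⟩
  · have h1 : (IntermediateField.adjoin L {(t : K)}).restrictScalars ℂ = ⊤ := by
      refine hK _ (fun a => ?_) (IntermediateField.mem_adjoin_simple_self L _)
      have h2 : algebraMap A' K a ∈ L := by
        rw [IsScalarTower.algebraMap_apply A' L₀ K]
        exact hL _
      exact (IntermediateField.adjoin L {(t : K)}).algebraMap_mem ⟨_, h2⟩
    rw [eq_top_iff]
    intro x _
    have h2 : x ∈ (IntermediateField.adjoin L {(t : K)}).restrictScalars ℂ := by rw [h1]; trivial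
    exact h2
  · intro a
    change algebraMap A' K (Ideal.Quotient.mk Q a) ∈ L
    rw [IsScalarTower.algebraMap_apply A' L₀ K]
    exact hL _
  · have h1 := Cut_aeval (ψ : A →+* K) ψ.comp_algebraMap t X q
    refine ⟨fun h => hrel q ?_, fun h => ?_⟩
    · apply Cut_inj t ht
      rw [Cut_aeval _ (IsScalarTower.algebraMap_eq ℂ A' K).symm]
      rw [← h]
      congr 2
      funext i
      exact (hψ i).symm
    · rw [← h1, h, map_zero]
  · rw [funext hψ]
    exact halg'

end Pool.Agent.GQL
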